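import Mathlib
import Pool.Agent.H713R5.QJ.Core5

/-!
Linear subfamilies of the family of all polynomials with marked critical points.
-/

set_option autoImplicit false

open Topology Filter Metric Set Polynomial MeasureTheory
open Pool.Agent.H713R3.ZA Pool.Agent.H713R5.QJ

namespace Pool.Agent.K4H48.LF

/-- the map of parameters -/
noncomputable def qm {m n : ℕ} (u : (Fin m → ℂ) →ₗ[ℂ] (Fin n → ℂ)) : PE m →L[ℂ] PE n :=
  LinearMap.toContinuousLinearMap
    { toFun := fun y k => k.elim (y none) (fun i => u (fun l => y (some l)) i)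
      map_add' := by
        intro y y'
        funext k
        rcases k with _ | i
        · rfl
        · show u (fun l => (y + y') (some l)) i = _
          have : (fun l => (y + y') (some l)) = (fun l => y (some l)) + fun l => y' (some l) := rfl
          rw [this, map_add]
          rfl
      map_smul' := by
        intro c y
        funext k
        rcases k with _ | i
        · rfl
        · show u (fun l => (c • y) (some l)) i = _
          have : (fun l => (c • y) (some l)) = c • (fun l => y (some l)) := rfl
          rw [this, map_smul]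
          rfl }

section
variable {m n : ℕ} {u : (Fin m → ℂ) →ₗ[ℂ] (Fin n → ℂ)}

theorem qm_none (y : PE m) : qm u y none = y none := rfl

theorem qm_some (y : PE m) (i : Fin n) : qm u y (some i) = u (fun l => y (some l)) i := rfl

theorem qm_inj (hu : Function.Injective u) : Function.Injective (qm u) := by
  intro y y' h
  have h1 : (fun l => y (some l)) = fun l => y' (some l) := by
    apply hu
    funext i
    exact congrFun h (some i)
  funext k
  rcases k with _ | l
  · exact congrFun h none
  · exact congrFun h1 l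

theorem qm_emb (hu : Function.Injective u) : IsClosedEmbedding (qm u) := by
  have h : IsClosedEmbedding ((qm u : PE m →ₗ[ℂ] PE n)) := by
    apply LinearMap.isClosedEmbedding_of_injective
    rw [LinearMap.ker_eq_bot]
    exact qm_inj hu
  exact h

end

/-- `u` is a complete family: injective, centred, and the critical values fall in at most `m + 1`
classes -/
structure Fml (a : ℂ) (n m : ℕ) (u : (Fin m → ℂ) →ₗ[ℂ] (Fin n → ℂ)) (κ : Fin n → Fin (m + 1)) :
    Prop where
  inj : Function.Injective u
  cen : ∀ s, ∑ i, u s i = 0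
  val : ∀ (y : PE m) (i j : Fin n), κ i = κ j →
    fx a n (qm u y) (qm u y (some i)) = fx a n (qm u y) (qm u y (some j))

section
variable {a : ℂ} {n m : ℕ} {u : (Fin m → ℂ) →ₗ[ℂ] (Fin n → ℂ)} {κ : Fin n → Fin (m + 1)}

/-- the second coefficient -/
theorem coeff_n (a : ℂ) {n : ℕ} (hn : 1 ≤ n) (x : PE n) :
    (fam a n x).coeff n = a * ((n : ℂ) + 1) * (-∑ i, x (some i)) / n := by
  obtain ⟨k, rfl⟩ : ∃ k, n = k + 1 := ⟨n - 1, by omega⟩
  rw [coeff_fam_succ, if_pos (by omega)]
  unfold dfam
  rw [coeff_C_mul]
  have h := Polynomial.prod_X_sub_C_coeff_card_pred (Finset.univ : Finset (Fin (k + 1)))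
    (fun i => x (some i)) (by simp)
  rw [Finset.card_univ, Fintype.card_fin, Nat.add_sub_cancel] at h
  rw [h]
  push_cast
  ring

theorem Fml.cn (hF : Fml a n m u κ) (hn : 1 ≤ n) (y : PE m) : (fam a n (qm u y)).coeff n = 0 := by
  rw [coeff_n a hn]
  have h : ∑ i, qm u y (some i) = 0 := hF.cen _
  rw [h]
  simp

/-- derivatives along the family -/
theorem chain {V W : Type} [NormedAddCommGroup V] [NormedSpace ℂ V] [NormedAddCommGroup W]
    [NormedSpace ℂ W] (q : V →L[ℂ] W) {g : W → ℂ} {y : V} (hg : DifferentiableAt ℂ g (q y)) (w : V) :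
    fderiv ℂ g (q y) (q w) = fderiv ℂ (fun y => g (q y)) y w := by
  have h := (hg.hasFDerivAt.comp y q.hasFDerivAt).fderiv
  have h2 : fderiv ℂ (fun y => g (q y)) y = (fderiv ℂ g (q y)).comp q := h
  rw [h2]
  rfl

theorem Fml.cn' (hF : Fml a n m u κ) (hn : 1 ≤ n) (y w : PE m) :
    fderiv ℂ (cf a n n) (qm u y) (qm u w) = 0 := by
  rw [chain (qm u) (cf_diff a n n _) w]
  have : (fun y : PE m => cf a n n (qm u y)) = fun _ => 0 := by
    funext y
    exact hF.cn hn y
  rw [this]
  simp

/-- same critical value, same orbit -/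
theorem Fml.iter (hF : Fml a n m u κ) (y : PE m) {i j : Fin n} (h : κ i = κ j) {k : ℕ}
    (hk : 1 ≤ k) : (fx a n (qm u y))^[k] (qm u y (some i)) = (fx a n (qm u y))^[k] (qm u y (some j)) := by
  obtain ⟨l, rfl⟩ : ∃ l, k = l + 1 := ⟨k - 1, by omega⟩
  rw [Function.iterate_succ_apply, Function.iterate_succ_apply, hF.val y i j h]

end

end Pool.Agent.K4H48.LF
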