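import Mathlib
import Pool.Agent.K4H48.LF.Fam
import Pool.Agent.H713R3.ZA.TNDEG

/-!
The differential of the coefficients along directions which do not separate equal critical points.
-/

set_option autoImplicit false

open Topology Filter Metric Set Polynomial MeasureTheory
open Pool.Agent.H713R3.ZA Pool.Agent.H713R5.QJ

namespace Pool.Agent.K4H48.LF

theorem sum_zero_of_poly {n : ℕ} (x v : Fin n → ℂ)
    (h : ∀ z : ℂ, ∑ k : Fin n, (∏ j ∈ Finset.univ.erase k, (z - x j)) * v k = 0) (ξ : ℂ) :
    ∑ k : Fin n, (if x k = ξ then v k else 0) = 0 := by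
  classical
  -- the sum of `v k (z - ξ) / (z - x k)` tends to the sum over the `k` with `x k = ξ`
  have h1 : ∀ k : Fin n, Tendsto (fun z : ℂ => v k * ((z - ξ) / (z - x k))) (𝓝[≠] ξ)
      (𝓝 (if x k = ξ then v k else 0)) := by
    intro k
    by_cases hk : x k = ξ
    · rw [if_pos hk]
      have h2 : (fun z : ℂ => v k * ((z - ξ) / (z - x k))) =ᶠ[𝓝[≠] ξ] fun _ => v k := by
        filter_upwards [self_mem_nhdsWithin] with z hz
        have hz' : z - ξ ≠ 0 := sub_ne_zero.2 hz
        rw [hk, div_self hz', mul_one]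
      exact tendsto_const_nhds.congr' h2.symm
    · rw [if_neg hk]
      have h2 : ContinuousAt (fun z : ℂ => v k * ((z - ξ) / (z - x k))) ξ := by
        have h3 : ξ - x k ≠ 0 := sub_ne_zero.2 (Ne.symm hk)
        fun_prop (disch := assumption)
      have h4 := h2.tendsto
      rw [sub_self, zero_div, mul_zero] at h4
      exact h4.mono_left nhdsWithin_le_nhds
  have h2 : Tendsto (fun z : ℂ => ∑ k : Fin n, v k * ((z - ξ) / (z - x k))) (𝓝[≠] ξ)
      (𝓝 (∑ k : Fin n, (if x k = ξ then v k else 0))) := tendsto_finsetSum _ fun k _ => h1 k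
  have h3 : (fun z : ℂ => ∑ k : Fin n, v k * ((z - ξ) / (z - x k))) =ᶠ[𝓝[≠] ξ] fun _ => 0 := by
    have h4 : ∀ᶠ z in 𝓝[≠] ξ, ∀ k : Fin n, z ≠ x k := by
      rw [Filter.eventually_all]
      intro k
      by_cases hk : x k = ξ
      · filter_upwards [self_mem_nhdsWithin] with z hz
        rw [hk]; exact hz
      · exact nhdsWithin_le_nhds (isOpen_ne.mem_nhds (Ne.symm hk : ξ ≠ x k))
    filter_upwards [h4] with z hz
    have h5 : ∏ j : Fin n, (z - x j) ≠ 0 := Finset.prod_ne_zero_iff.2 fun j _ => sub_ne_zero.2 (hz j)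
    have h6 : (∏ j : Fin n, (z - x j)) * ∑ k : Fin n, v k * ((z - ξ) / (z - x k)) =
        (z - ξ) * ∑ k : Fin n, (∏ j ∈ Finset.univ.erase k, (z - x j)) * v k := by
      rw [Finset.mul_sum, Finset.mul_sum]
      apply Finset.sum_congr rfl
      intro k _
      rw [← Finset.mul_prod_erase Finset.univ (fun j => z - x j) (Finset.mem_univ k)]
      have := sub_ne_zero.2 (hz k)
      field_simp
    rw [h z, mul_zero] at h6
    exact (mul_eq_zero.1 h6).resolve_left h5
  have h4 : Tendsto (fun _ : ℂ => (0 : ℂ)) (𝓝[≠] ξ)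
      (𝓝 (∑ k : Fin n, (if x k = ξ then v k else 0))) := h2.congr' h3
  exact tendsto_nhds_unique h4 tendsto_const_nhds

open NDEG in
theorem ndegV (n : ℕ) (a : ℂ) (x v : PE n) (ha : a ≠ 0)
    (hsep : ∀ i j : Fin n, x (some i) = x (some j) → v (some i) = v (some j))
    (hf : ∀ j : ℕ, fderiv ℂ (fun x : PE n => (fam a n x).coeff j) x v = 0) : v = 0 := by
  classical
  have hn1 : ((n : ℂ) + 1) ≠ 0 := Nat.cast_add_one_ne_zero n
  have h0 : v none = 0 := by
    have h := hf 0
    simp only [NDEG.fam_coeff_zero] at h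
    have h1 : HasFDerivAt (fun y : PE n => y none)
        (ContinuousLinearMap.proj (R := ℂ) (φ := fun _ : Option (Fin n) => ℂ) none) x :=
      (ContinuousLinearMap.proj (R := ℂ) (φ := fun _ : Option (Fin n) => ℂ) none).hasFDerivAt
    rw [h1.fderiv] at h
    exact h
  have hline : ∀ j : ℕ, HasDerivAt (fun t : ℂ => (fam a n (x + t • v)).coeff j) 0 0 := by
    intro j
    have h1 := (NDEG.fam_diff a n j x).hasFDerivAt
    have h2 : HasDerivAt (fun t : ℂ => x + t • v) v 0 := by
      have h3 := ((hasDerivAt_id (0 : ℂ)).smul_const v).const_add x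
      simpa using h3
    have h4 : HasFDerivAt (fun y : PE n => (fam a n y).coeff j)
        (fderiv ℂ (fun y : PE n => (fam a n y).coeff j) x) (x + (0 : ℂ) • v) := by
      rw [zero_smul, add_zero]
      exact h1
    have h5 := h4.comp_hasDerivAt (0 : ℂ) h2
    rw [hf j] at h5
    exact h5
  have key : ∀ z : ℂ, ∑ k : Fin n, (∏ j ∈ Finset.univ.erase k, (z - x (some j))) * v (some k) = 0 := by
    intro z
    have h6 : HasDerivAt (fun t : ℂ => ∑ m ∈ Finset.range (n + 1), ((m : ℂ) + 1) *
        (fam a n (x + t • v)).coeff (m + 1) * z ^ m) 0 0 := by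
      have h7 : HasDerivAt (fun t : ℂ => ∑ m ∈ Finset.range (n + 1), ((m : ℂ) + 1) *
          (fam a n (x + t • v)).coeff (m + 1) * z ^ m)
          (∑ m ∈ Finset.range (n + 1), ((m : ℂ) + 1) * 0 * z ^ m) 0 :=
        HasDerivAt.fun_sum fun m _ => ((hline (m + 1)).const_mul _).mul_const _
      simpa using h7
    simp only [NDEG.eval_eq] at h6
    have h8 : HasDerivAt (fun t : ℂ => ∏ k : Fin n, (z - (x + t • v) (some k)))
        (∑ k : Fin n, (∏ j ∈ Finset.univ.erase k, (z - (x + (0 : ℂ) • v) (some j))) •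
          (-(v (some k)))) 0 := by
      refine HasDerivAt.fun_finsetProd fun k _ => ?_
      have h9 : HasDerivAt (fun t : ℂ => z - (x (some k) + t * v (some k))) (-(v (some k))) 0 := by
        have h10 := (((hasDerivAt_id (0 : ℂ)).mul_const (v (some k))).const_add
          (x (some k))).const_sub z
        simpa using h10
      exact h9
    have h11 := (h8.const_mul (a * ((n : ℂ) + 1))).unique h6
    have h12 := (mul_eq_zero.1 h11).resolve_left (mul_ne_zero ha hn1)
    rw [zero_smul, add_zero] at h12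
    simp only [smul_eq_mul, mul_neg, Finset.sum_neg_distrib, neg_eq_zero] at h12
    exact h12
  have hi : ∀ i : Fin n, v (some i) = 0 := by
    intro i
    have h1 := sum_zero_of_poly (fun k => x (some k)) (fun k => v (some k)) key (x (some i))
    have h2 : ∀ k : Fin n, (if x (some k) = x (some i) then v (some k) else 0) =
        (if x (some k) = x (some i) then 1 else 0) * v (some i) := by
      intro k
      by_cases hk : x (some k) = x (some i)
      · rw [if_pos hk, if_pos hk, one_mul, hsep k i hk]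
      · rw [if_neg hk, if_neg hk, zero_mul]
    rw [Finset.sum_congr rfl (fun k _ => h2 k), ← Finset.sum_mul, Finset.sum_boole] at h1
    refine (mul_eq_zero.1 h1).resolve_left ?_
    rw [Nat.cast_eq_zero]
    apply Finset.card_ne_zero_of_mem (a := i)
    simp
  funext o
  rcases o with _ | i
  · exact h0
  · exact hi i

end Pool.Agent.K4H48.LF
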