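import Mathlib
import Pool.Agent.K4H48.LF.Ndeg
import Pool.Agent.H713R5.QJ.TGENP

/-!
Generic points of the subfamily.
-/

set_option autoImplicit false

open Topology Filter Metric Set Polynomial MeasureTheory
open Pool.Agent.H713R3.ZA Pool.Agent.H713R5.QJ

namespace Pool.Agent.K4H48.LF

theorem exists_sep {V ι : Type} [NormedAddCommGroup V] [NormedSpace ℂ V] [DecidableEq ι]
    (s : Finset ι) (ℓ : ι → (V →L[ℂ] ℂ)) : ∀ U : Set V, IsOpen U → U.Nonempty →
    ∃ y ∈ U, ∀ i ∈ s, ℓ i y = 0 → ∀ w, ℓ i w = 0 := by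
  induction s using Finset.induction_on with
  | empty =>
    rintro U - ⟨y, hy⟩
    exact ⟨y, hy, fun i hi => absurd hi (Finset.notMem_empty i)⟩
  | insert i s hi ih =>
    rintro U hU ⟨y, hy⟩
    by_cases h : ∀ w, ℓ i w = 0
    · obtain ⟨y', hy', h'⟩ := ih U hU ⟨y, hy⟩
      refine ⟨y', hy', fun k hk => ?_⟩
      rcases Finset.mem_insert.1 hk with rfl | hk
      · exact fun _ => h
      · exact h' k hk
    · push Not at h
      obtain ⟨w, hw⟩ := h
      have hne : (U ∩ {y | ℓ i y ≠ 0}).Nonempty := by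
        by_cases hy0 : ℓ i y = 0
        · have h1 : Tendsto (fun t : ℂ => y + t • w) (𝓝[≠] 0) (𝓝 y) := by
            have h2 : Continuous (fun t : ℂ => y + t • w) := by fun_prop
            have h3 := h2.tendsto 0
            rw [zero_smul, add_zero] at h3
            exact h3.mono_left nhdsWithin_le_nhds
          have h4 := h1.eventually (hU.mem_nhds hy)
          obtain ⟨t, ht, ht0⟩ := (h4.and self_mem_nhdsWithin).exists
          refine ⟨y + t • w, ht, ?_⟩
          show ℓ i (y + t • w) ≠ 0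
          rw [map_add, hy0, zero_add, map_smul]
          exact mul_ne_zero ht0 hw
        · exact ⟨y, hy, hy0⟩
      have hop : IsOpen (U ∩ {y | ℓ i y ≠ 0}) := by
        apply hU.inter
        exact isOpen_ne_fun (ℓ i).continuous continuous_const
      obtain ⟨y', ⟨hy', hy''⟩, h'⟩ := ih _ hop hne
      refine ⟨y', hy', fun k hk => ?_⟩
      rcases Finset.mem_insert.1 hk with rfl | hk
      · exact fun h0 => absurd h0 hy''
      · exact h' k hk

theorem exists_goodV {m n : ℕ} (u : (Fin m → ℂ) →ₗ[ℂ] (Fin n → ℂ)) {Ω : Set (PE m)}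
    (hΩ : IsOpen Ω) {X : PE m → PE m} (hX : DifferentiableOn ℂ X Ω) (h : ∃ y ∈ Ω, X y ≠ 0) :
    ∃ y ∈ Ω, X y ≠ 0 ∧ ∀ i j : Fin n, qm u y (some i) = qm u y (some j) →
      ∀ w : PE m, qm u w (some i) = qm u w (some j) := by
  classical
  obtain ⟨y₁, hy₁, hX₁⟩ := h
  have hop : IsOpen {y | y ∈ Ω ∧ X y ≠ 0} :=
    hX.continuousOn.isOpen_inter_preimage hΩ isOpen_ne
  obtain ⟨y, ⟨hy, hXy⟩, h2⟩ := exists_sep (V := PE m) (Finset.univ : Finset (Fin n × Fin n))
    (fun p => (ContinuousLinearMap.proj (R := ℂ) (φ := fun _ : Option (Fin n) => ℂ) (some p.1) -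
      ContinuousLinearMap.proj (R := ℂ) (φ := fun _ : Option (Fin n) => ℂ) (some p.2)).comp (qm u))
    _ hop ⟨y₁, hy₁, hX₁⟩
  refine ⟨y, hy, hXy, fun i j hij w => ?_⟩
  have h3 := h2 (i, j) (Finset.mem_univ _) (by
    show qm u y (some i) - qm u y (some j) = 0
    rw [hij, sub_self]) w
  exact sub_eq_zero.1 h3

/-- the speed of a coefficient along the field -/
theorem speed_diffV {m n : ℕ} (u : (Fin m → ℂ) →ₗ[ℂ] (Fin n → ℂ)) {a : ℂ} (j : ℕ) {Ω : Set (PE m)}
    (hΩ : IsOpen Ω) {X : PE m → PE m} (hX : DifferentiableOn ℂ X Ω) :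
    DifferentiableOn ℂ (fun y => fderiv ℂ (cf a n j) (qm u y) (qm u (X y))) Ω := by
  have hg : Differentiable ℂ (fun y : PE m => cf a n j (qm u y)) := fun y =>
    (cf_diff a n j (qm u y)).comp y (qm u).differentiableAt
  have h0 : ∀ y, fderiv ℂ (cf a n j) (qm u y) (qm u (X y)) =
      fderiv ℂ (fun y : PE m => cf a n j (qm u y)) y (X y) := fun y =>
    chain (qm u) (cf_diff a n j _) (X y)
  have h1 : ∀ y, fderiv ℂ (fun y : PE m => cf a n j (qm u y)) y (X y) =
      ∑ k, X y k * fderiv ℂ (fun y : PE m => cf a n j (qm u y)) y (fun l => if k = l then 1 else 0) := by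
    intro y
    have := LinearMap.pi_apply_eq_sum_univ
      ((fderiv ℂ (fun y : PE m => cf a n j (qm u y)) y) : PE m →ₗ[ℂ] ℂ) (X y)
    simpa using this
  have h2 : (fun y => fderiv ℂ (cf a n j) (qm u y) (qm u (X y))) = fun y =>
      ∑ k, X y k * fderiv ℂ (fun y : PE m => cf a n j (qm u y)) y (fun l => if k = l then 1 else 0) := by
    funext y
    rw [h0, h1]
  rw [h2]
  apply DifferentiableOn.fun_sum
  intro k _
  apply DifferentiableOn.mul
  · exact (differentiableOn_pi.mp hX) k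
  · exact Pool.Agent.Helper540.differentiableOn_fderiv_apply hΩ hg.differentiableOn _

open GENPaux in
/-- moving the constant term -/
theorem qm_mv {m n : ℕ} (u : (Fin m → ℂ) →ₗ[ℂ] (Fin n → ℂ)) (y : PE m) (s : ℂ) :
    qm u (mv y s) = mv (qm u y) s := by
  funext k
  rcases k with _ | i
  · rfl
  · rfl

open GENPaux in
/-- generic constant term: nonzero multipliers and positions -/
theorem genpV (H : HH) (a : ℂ) (n P : ℕ) (ha : a ≠ 0) (hn : 1 ≤ n) (hP : 0 < P)
    (x₁ : PE n) (I : Finset (Fin n)) (hI : ∀ i ∈ I, AT (fx a n x₁) P (x₁ (some i)))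
    (W : Set ℂ) (hW : W ∈ 𝓝 (0 : ℂ)) : ∃ s ∈ W, ∀ i ∈ I,
      (mv x₁ s, mv x₁ s (some i)) ∈ A0 a n P ∧
      KP (fx a n (mv x₁ s)) P (mv x₁ s (some i)) ≠ 0 := by
  have hKO0 := H.ko0
  have hKO1 := H.ko1
  have hKO2 := H.ko2
  have hKO3 := H.ko3
  -- the bad parameters
  have hdeg : 2 ≤ (fam a n x₁).natDegree := by
    rw [natDegree_fam ha]
    omega
  have hbad : (⋃ i : Fin n, ⋃ m : ℕ, {s : ℂ | (qp (fam a n x₁) (x₁ (some i)) (m + P) -
      qp (fam a n x₁) (x₁ (some i)) m).IsRoot s}).Countable :=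
    Set.countable_iUnion fun i => Set.countable_iUnion fun m =>
      (Polynomial.finite_setOfPred_isRoot (qp_ne hdeg _ hP)).countable
  -- the good neighbourhood
  obtain ⟨hopen, -, -, -⟩ := hKO1 hKO0 a n P ha hn hP
  have hev : ∀ᶠ s : ℂ in 𝓝 0, s ∈ W ∧
      ∀ i ∈ I, AT (fx a n (mv x₁ s)) P (x₁ (some i)) := by
    refine Filter.Eventually.and hW ?_
    · rw [Finset.eventually_all]
      intro i hi
      have h1 : Continuous fun s : ℂ => ((mv x₁ s, x₁ (some i)) : PE n × ℂ) :=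
        (mv_cont x₁).prodMk continuous_const
      have h2 : IsOpen {s : ℂ | AT (fx a n (mv x₁ s)) P (x₁ (some i))} := hopen.preimage h1
      apply h2.mem_nhds
      change AT (fx a n (mv x₁ 0)) P (x₁ (some i))
      rw [mv_zero]
      exact hI i hi
  obtain ⟨δ, hδ, hball⟩ := Metric.eventually_nhds_iff_ball.1 hev
  obtain ⟨s, hs1, hs2⟩ := (hbad.dense_compl ℂ).exists_mem_open isOpen_ball
    ⟨(0 : ℂ), mem_ball_self hδ⟩
  obtain ⟨hxε, hAT⟩ := hball s hs2
  refine ⟨s, hxε, fun i hi => ?_⟩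
  have hex : ∀ (j : Fin n) (m : ℕ), (fx a n (mv x₁ s))^[m + P] (mv x₁ s (some j)) ≠
      (fx a n (mv x₁ s))^[m] (mv x₁ s (some j)) := by
    intro j m h
    apply hs1
    refine mem_iUnion.2 ⟨j, mem_iUnion.2 ⟨m, ?_⟩⟩
    change (qp (fam a n x₁) (x₁ (some j)) (m + P) -
      qp (fam a n x₁) (x₁ (some j)) m).eval s = 0
    rw [eval_sub, ← qp_eval, ← qp_eval]
    exact sub_eq_zero.2 h
  set x : PE n := mv x₁ s with hx
  have hATi : AT (fx a n x) P (x (some i)) := hAT i hi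
  obtain ⟨hk1, hk2, hk3, hk4, hk5⟩ := hKO0 (fx a n x) P (Pool.Agent.H713R5.QJ.fx_differentiable a n x) hP
  have hSk : Sk (fx a n x) P (x (some i)) (SP (fx a n x) P (x (some i))) := hk2 _ hATi
  obtain ⟨hz1, hz2, hz3⟩ := hSk
  have hLP : LP (fx a n x) P (x (some i)) ≠ 0 := by
    intro h0
    obtain ⟨j, m, hm1, hm2, hm3⟩ := exists_crit_iter ha P (h0 : deriv ((fx a n x)^[P])
      (SP (fx a n x) P (x (some i))) = 0)
    rw [hz1] at hm3
    apply hex j m
    rw [add_comm, Function.iterate_add_apply, ← hm3, hz1]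
  have hA0 : (x, x (some i)) ∈ A0 a n P := ⟨hATi, hLP⟩
  refine ⟨hA0, fun hK0 => ?_⟩
  obtain ⟨-, hKO2'⟩ := hKO2 hKO0 hKO1 hKO3 a n P ha hn hP
  have hstep : ∀ (u : ℂ), (x, u) ∈ A0 a n P → ∀ k : ℕ, (x, (fx a n x)^[k] u) ∈ A0 a n P := by
    intro u hu k
    induction k with
    | zero => exact hu
    | succ k ih =>
      rw [Function.iterate_succ_apply']
      exact (hKO2' x _ ih).2.1
  have hiter : ∀ k : ℕ, KP (fx a n x) P ((fx a n x)^[P * k] (x (some i))) = 0 := by
    intro k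
    induction k with
    | zero => exact hK0
    | succ k ih =>
      rw [Nat.mul_succ, add_comm, Function.iterate_add_apply,
        (hKO2' x _ (hstep _ hA0 (P * k))).2.2.2.2, ih, mul_zero]
  obtain ⟨r₁, r₂, -, hKL⟩ := hKO3 hKO0 a n P (‖x‖ + 1) ‖LP (fx a n x) P (x (some i))‖
    ‖LP (fx a n x) P (x (some i))‖ 1 ha hn hP (by positivity) (norm_pos_iff.2 hLP) hz2 one_pos
  have hxB : x ∈ ball (0 : PE n) (‖x‖ + 1) := by
    rw [mem_ball_zero_iff]
    linarith
  have hzero := hKL.zero x hxB (SP (fx a n x) P (x (some i))) hz1 le_rfl le_rfl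
  have hclose := hKL.close x hxB (SP (fx a n x) P (x (some i))) hz1 le_rfl le_rfl
  obtain ⟨k, hk⟩ := (hz3.eventually (ball_mem_nhds (SP (fx a n x) P (x (some i))) hKL.r1)).exists
  have h1 := hclose _ hk _ (mem_ball_self hKL.r1)
  rw [hiter k, hzero, sub_zero, zero_sub, norm_neg] at h1
  have h2 : ‖(fx a n x)^[P * k] (x (some i)) - SP (fx a n x) P (x (some i))‖ = 0 := by
    have := norm_nonneg ((fx a n x)^[P * k] (x (some i)) - SP (fx a n x) P (x (some i)))
    linarith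
  have h3 : (fx a n x)^[P * k] (x (some i)) = SP (fx a n x) P (x (some i)) :=
    sub_eq_zero.1 (norm_eq_zero.1 h2)
  apply hex i (P * k)
  rw [add_comm, Function.iterate_add_apply, h3, hz1]

end Pool.Agent.K4H48.LF
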