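import Mathlib
import Pool.Agent.K4H48.LF.Fam

/-!
The invariants depend only on the critical value.
-/

set_option autoImplicit false

open Topology Filter Metric Set Polynomial MeasureTheory
open Pool.Agent.H713R3.ZA Pool.Agent.H713R5.QJ

namespace Pool.Agent.K4H48.LF

theorem at_iff (H : HH) {a : ℂ} {n P : ℕ} (hP : 0 < P) {x : PE n} {v w : ℂ}
    (h : fx a n x v = fx a n x w) : AT (fx a n x) P v ↔ AT (fx a n x) P w := by
  have h1 := (H.ko0 (fx a n x) P (Pool.Agent.H713R5.QJ.fx_differentiable a n x) hP).2.2.1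
  rw [← h1 v, ← h1 w, h]

theorem esc_iff {f : ℂ → ℂ} {v w : ℂ} (h : f v = f w) :
    Tendsto (fun k : ℕ => ‖f^[k] v‖) atTop atTop ↔ Tendsto (fun k : ℕ => ‖f^[k] w‖) atTop atTop := by
  have h1 : ∀ u : ℂ, Tendsto (fun k : ℕ => ‖f^[k] (f u)‖) atTop atTop ↔
      Tendsto (fun k : ℕ => ‖f^[k] u‖) atTop atTop := by
    intro u
    have : (fun k : ℕ => ‖f^[k] (f u)‖) = fun k : ℕ => (fun k => ‖f^[k] u‖) (k + 1) := by
      funext k
      simp only [Function.iterate_succ_apply]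
    rw [this]
    exact Filter.tendsto_add_atTop_iff_nat (f := fun k => ‖f^[k] u‖) 1
  rw [← h1 v, ← h1 w, h]

theorem good_iff (H : HH) {a : ℂ} {n : ℕ} {x : PE n} {v w : ℂ}
    (h : fx a n x v = fx a n x w) : Good (fx a n x) v ↔ Good (fx a n x) w := by
  unfold Good
  rw [esc_iff h]
  constructor
  · rintro (h1 | ⟨P, hP, h1⟩)
    · exact Or.inl h1
    · exact Or.inr ⟨P, hP, (at_iff H hP h).1 h1⟩
  · rintro (h1 | ⟨P, hP, h1⟩)
    · exact Or.inl h1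
    · exact Or.inr ⟨P, hP, (at_iff H hP h).2 h1⟩

theorem sp_eq (H : HH) {a : ℂ} {n P : ℕ} (hP : 0 < P) {x : PE n} {v w : ℂ}
    (h : fx a n x v = fx a n x w) (hv : AT (fx a n x) P v) :
    SP (fx a n x) P v = SP (fx a n x) P w := by
  have hw := (at_iff H hP h).1 hv
  obtain ⟨-, h2, -, h4, -⟩ := H.ko0 (fx a n x) P (Pool.Agent.H713R5.QJ.fx_differentiable a n x) hP
  have e1 := (h4 v hv).1
  have e2 := (h4 w hw).1
  rw [h, e2] at e1
  -- apply the iterate `P - 1`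
  obtain ⟨k, rfl⟩ : ∃ k, P = k + 1 := ⟨P - 1, by omega⟩
  have f1 := (h2 v hv).1
  have f2 := (h2 w hw).1
  rw [Function.iterate_succ_apply] at f1 f2
  rw [← f1, ← f2, e1]

theorem lp_eq (H : HH) {a : ℂ} {n P : ℕ} (hP : 0 < P) {x : PE n} {v w : ℂ}
    (h : fx a n x v = fx a n x w) (hv : AT (fx a n x) P v) :
    LP (fx a n x) P v = LP (fx a n x) P w := by
  unfold LP
  rw [sp_eq H hP h hv]

theorem a0_iff (H : HH) {a : ℂ} {n P : ℕ} (hP : 0 < P) {x : PE n} {v w : ℂ}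
    (h : fx a n x v = fx a n x w) : (x, v) ∈ A0 a n P ↔ (x, w) ∈ A0 a n P := by
  constructor
  · rintro ⟨h1, h2⟩
    exact ⟨(at_iff H hP h).1 h1, by rw [← lp_eq H hP h h1]; exact h2⟩
  · rintro ⟨h1, h2⟩
    exact ⟨(at_iff H hP h).2 h1, by rw [← lp_eq H hP h.symm h1]; exact h2⟩

theorem kp_eq (H : HH) {a : ℂ} {n P : ℕ} (ha : a ≠ 0) (hn : 1 ≤ n) (hP : 0 < P) {x : PE n}
    {v w : ℂ} (h : fx a n x v = fx a n x w) (hv : (x, v) ∈ A0 a n P) :
    KP (fx a n x) P v = KP (fx a n x) P w := by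
  have hw := (a0_iff H hP h).1 hv
  obtain ⟨-, hK⟩ := H.ko2 H.ko0 H.ko1 H.ko3 a n P ha hn hP
  obtain ⟨-, -, e1, e2, -⟩ := hK x v hv
  obtain ⟨-, -, -, e4, -⟩ := hK x w hw
  rw [h, e4, ← sp_eq H hP h hv.1] at e2
  exact (mul_left_cancel₀ e1 e2).symm

/-- representatives of the classes -/
theorem exists_rep {n m : ℕ} (hn : 1 ≤ n) (κ : Fin n → Fin (m + 1)) :
    ∃ g : Fin (m + 1) → Fin n, ∀ i : Fin n, κ (g (κ i)) = κ i := by
  classical
  have i₀ : Fin n := ⟨0, by omega⟩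
  refine ⟨fun c => if h : ∃ i, κ i = c then h.choose else i₀, fun i => ?_⟩
  have h : ∃ j, κ j = κ i := ⟨i, rfl⟩
  show κ (if h : ∃ j, κ j = κ i then h.choose else i₀) = κ i
  rw [dif_pos h]
  exact h.choose_spec

/-- references which depend only on the class -/
theorem refV (H : HH) {n m P : ℕ} (f : ℂ → ℂ) (κ : Fin n → Fin (m + 1))
    (g : Fin (m + 1) → Fin n) (hg : ∀ i : Fin n, κ (g (κ i)) = κ i) (Es : Finset (Fin n))
    (hEs : ∀ i j, κ i = κ j → i ∈ Es → j ∈ Es) (s : Fin n → ℂ) (hP : 0 < P)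
    (hs : ∀ i ∈ Es, f^[P] (s i) = s i) (hκ : ∀ i ∈ Es, s i = s (g (κ i))) :
    ∃ (rf : Fin n → Fin n) (ap : Fin n → ℕ), RFP n Es rf ap ∧
      (∀ i ∈ Es, s i = f^[ap i] (s (rf i))) ∧
      (∀ i ∈ Es, ∀ i' ∈ Es, rf i = i → rf i' = i' → i ≠ i' → ∀ b : ℕ, s i' ≠ f^[b] (s i)) ∧
      (∀ i, rf (g (κ i)) = rf i ∧ ap (g (κ i)) = ap i) ∧
      (∀ i ∈ Es, g (κ (rf i)) = rf i) := by
  classical
  have hgg : ∀ i, g (κ (g (κ i))) = g (κ i) := fun i => by rw [hg]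
  have hgE : ∀ i ∈ Es, g (κ i) ∈ Es := fun i hi => hEs i _ (hg i).symm hi
  obtain ⟨rf₀, ap₀, h1, h2, h3⟩ := H.refp f n P (Es.filter fun i => g (κ i) = i) s hP
    (fun i hi => hs i (Finset.mem_filter.1 hi).1)
  have hmem : ∀ i ∈ Es, g (κ i) ∈ Es.filter fun i => g (κ i) = i := fun i hi =>
    Finset.mem_filter.2 ⟨hgE i hi, hgg i⟩
  have hr : ∀ i ∈ Es, rf₀ (g (κ i)) ∈ Es ∧ g (κ (rf₀ (g (κ i)))) = rf₀ (g (κ i)) := fun i hi =>
    (Finset.mem_filter (p := fun i => g (κ i) = i)).1 (h1.mem _ (hmem i hi))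
  refine ⟨fun i => rf₀ (g (κ i)), fun i => ap₀ (g (κ i)), ⟨fun i hi => (hr i hi).1, ?_, ?_⟩, ?_, ?_,
    fun i => ?_, fun i hi => (hr i hi).2⟩
  · intro i hi
    show rf₀ (g (κ (rf₀ (g (κ i))))) = rf₀ (g (κ i))
    rw [(hr i hi).2]
    exact h1.idem _ (hmem i hi)
  · intro i hi hii
    have hii' : rf₀ (g (κ i)) = i := hii
    have h4 : g (κ i) = i := by
      have := (hr i hi).2
      rw [hii'] at this
      exact this
    show ap₀ (g (κ i)) = 0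
    apply h1.zero _ (hmem i hi)
    rw [h4]
    rw [h4] at hii'
    exact hii'
  · intro i hi
    show s i = f^[ap₀ (g (κ i))] (s (rf₀ (g (κ i))))
    rw [hκ i hi]
    exact h2 _ (hmem i hi)
  · intro i hi i' hi' h4 h5 hne b
    have h4' : rf₀ (g (κ i)) = i := h4
    have h5' : rf₀ (g (κ i')) = i' := h5
    have e1 : g (κ i) = i := by
      have := (hr i hi).2
      rw [h4'] at this
      exact this
    have e2 : g (κ i') = i' := by
      have := (hr i' hi').2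
      rw [h5'] at this
      exact this
    rw [e1] at h4'
    rw [e2] at h5'
    exact h3 i (Finset.mem_filter.2 ⟨hi, e1⟩) i' (Finset.mem_filter.2 ⟨hi', e2⟩) h4' h5' hne b
  · refine ⟨?_, ?_⟩
    · show rf₀ (g (κ (g (κ i)))) = rf₀ (g (κ i))
      rw [hgg]
    · show ap₀ (g (κ (g (κ i)))) = ap₀ (g (κ i))
      rw [hgg]

end Pool.Agent.K4H48.LF
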